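import Mathlib

set_option autoImplicit false

/-!
# The function of pole order 24 with a zero of order 22

On `x^4 - x^2 + x y + y^3 = 0` the polynomial below in `x`, `y`, `u = y^2 / x` has pole order 24 at
infinity and vanishes to order 22 at the point `a = 0`, where `x = a^2 e`, `y = a e b`.
-/

namespace Pool.Agent.H4Q

theorem dvd_22 {a e b x y u : ℤ} (hab : IsCoprime a b)
    (h : e * b ^ 3 + b = a - a ^ 5 * e ^ 2) (hx : x = a ^ 2 * e) (hy : y = a * e * b)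
    (hu : u = e * b ^ 2) :
    a ^ 22 ∣
      66989 * x ^ 8 - 137255 * (x ^ 5 * y ^ 2) - 151108 * (x ^ 6 * y) - 75584 * x ^ 7 -
      71742 * (x ^ 4 * y ^ 2) - 325805 * (x ^ 5 * y) - 657531 * x ^ 6 +
      638726 * (x ^ 3 * y ^ 2) + 556709 * (x ^ 4 * y) + 332837 * x ^ 5 +
      36794 * (x ^ 2 * y ^ 2) + 170766 * (x ^ 3 * y) + 896517 * x ^ 4 - 221859 * (x * y ^ 2) -
      162898 * (x ^ 2 * y) - 73150 * x ^ 3 - 70975 * y ^ 2 - 64968 * (x * y) - 280820 * x ^ 2 -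
      6007 * u - 6007 * y - 76982 * x - 6007 := by
  have hc : IsCoprime (a ^ 22) (b ^ 22) := hab.pow
  apply hc.dvd_of_dvd_mul_left
  refine ⟨
      (-6007) + 43158 * b ^ 2 * e + (-30467) * b ^ 4 * e ^ 2 + (-169006) * b ^ 6 * e ^ 3 +
      (-276564) * b ^ 8 * e ^ 4 + 700063 * b ^ 10 * e ^ 5 + 970433 * b ^ 12 * e ^ 6 +
      23072 * b ^ 14 * e ^ 7 + (-516999) * b ^ 16 * e ^ 8 + (-137255) * b ^ 18 * e ^ 9 +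
      6007 * a * b ^ 3 * e ^ 2 + (-25137) * a * b ^ 5 * e ^ 3 + (-56958) * a * b ^ 7 * e ^ 4 +
      132504 * a * b ^ 9 * e ^ 5 + 406039 * a * b ^ 11 * e ^ 6 + 7816 * a * b ^ 13 * e ^ 7 +
      (-611020) * a * b ^ 15 * e ^ 8 + (-151108) * a * b ^ 17 * e ^ 9 +
      6007 * a ^ 2 * b ^ 2 * e ^ 2 + (-31144) * a ^ 2 * b ^ 4 * e ^ 3 +
      (-31821) * a ^ 2 * b ^ 6 * e ^ 4 + 165434 * a ^ 2 * b ^ 8 * e ^ 5 +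
      338041 * a ^ 2 * b ^ 10 * e ^ 6 + (-199779) * a ^ 2 * b ^ 12 * e ^ 7 +
      (-707757) * a ^ 2 * b ^ 14 * e ^ 8 + (-75584) * a ^ 2 * b ^ 16 * e ^ 9 +
      6007 * a ^ 3 * b * e ^ 2 + (-37151) * a ^ 3 * b ^ 3 * e ^ 3 +
      (-677) * a ^ 3 * b ^ 5 * e ^ 4 + 173227 * a ^ 3 * b ^ 7 * e ^ 5 +
      261141 * a ^ 3 * b ^ 9 * e ^ 6 + (-403882) * a ^ 3 * b ^ 11 * e ^ 7 +
      (-699231) * a ^ 3 * b ^ 13 * e ^ 8 + 71742 * a ^ 3 * b ^ 15 * e ^ 9 +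
      6007 * a ^ 4 * e ^ 2 + (-43158) * a ^ 4 * b ^ 2 * e ^ 3 + 36474 * a ^ 4 * b ^ 4 * e ^ 4 +
      149876 * a ^ 4 * b ^ 6 * e ^ 5 + 200476 * a ^ 4 * b ^ 8 * e ^ 6 +
      (-619619) * a ^ 4 * b ^ 10 * e ^ 7 + (-524428) * a ^ 4 * b ^ 12 * e ^ 8 +
      191827 * a ^ 4 * b ^ 14 * e ^ 9 + 66989 * a ^ 4 * b ^ 16 * e ^ 10, ?_⟩
  rw [hx, hy, hu]
  linear_combination (
      (-6007) * b ^ 21 + (-6007) * a * b ^ 20 + (-6007) * a ^ 2 * b ^ 19 +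
      (-70975) * a ^ 2 * b ^ 21 * e + (-6007) * a ^ 3 * b ^ 18 + (-64968) * a ^ 3 * b ^ 20 * e +
      (-6007) * a ^ 4 * b ^ 17 + (-58961) * a ^ 4 * b ^ 19 * e +
      (-221859) * a ^ 4 * b ^ 21 * e ^ 2 + (-6007) * a ^ 5 * b ^ 16 +
      (-52954) * a ^ 5 * b ^ 18 * e + (-162898) * a ^ 5 * b ^ 20 * e ^ 2 +
      (-6007) * a ^ 6 * b ^ 15 + (-46947) * a ^ 6 * b ^ 17 * e +
      (-109944) * a ^ 6 * b ^ 19 * e ^ 2 + 36794 * a ^ 6 * b ^ 21 * e ^ 3 +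
      (-6007) * a ^ 7 * b ^ 14 + (-40940) * a ^ 7 * b ^ 16 * e +
      (-62997) * a ^ 7 * b ^ 18 * e ^ 2 + 170766 * a ^ 7 * b ^ 20 * e ^ 3 +
      (-6007) * a ^ 8 * b ^ 13 + (-34933) * a ^ 8 * b ^ 15 * e +
      (-22057) * a ^ 8 * b ^ 17 * e ^ 2 + 257791 * a ^ 8 * b ^ 19 * e ^ 3 +
      638726 * a ^ 8 * b ^ 21 * e ^ 4 + (-6007) * a ^ 9 * b ^ 12 +
      (-28926) * a ^ 9 * b ^ 14 * e + 12876 * a ^ 9 * b ^ 16 * e ^ 2 +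
      303876 * a ^ 9 * b ^ 18 * e ^ 3 + 556709 * a ^ 9 * b ^ 20 * e ^ 4 +
      (-6007) * a ^ 10 * b ^ 11 + (-22919) * a ^ 10 * b ^ 13 * e +
      41802 * a ^ 10 * b ^ 15 * e ^ 2 + 315028 * a ^ 10 * b ^ 17 * e ^ 3 +
      404579 * a ^ 10 * b ^ 19 * e ^ 4 + (-71742) * a ^ 10 * b ^ 21 * e ^ 5 +
      (-6007) * a ^ 11 * b ^ 10 + (-16912) * a ^ 11 * b ^ 12 * e +
      64721 * a ^ 11 * b ^ 14 * e ^ 2 + 297254 * a ^ 11 * b ^ 16 * e ^ 3 +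
      217269 * a ^ 11 * b ^ 18 * e ^ 4 + (-325805) * a ^ 11 * b ^ 20 * e ^ 5 +
      (-6007) * a ^ 12 * b ^ 9 + (-10905) * a ^ 12 * b ^ 11 * e +
      81633 * a ^ 12 * b ^ 13 * e ^ 2 + 256561 * a ^ 12 * b ^ 15 * e ^ 3 +
      23705 * a ^ 12 * b ^ 17 * e ^ 4 + (-520276) * a ^ 12 * b ^ 19 * e ^ 5 +
      (-137255) * a ^ 12 * b ^ 21 * e ^ 6 + (-6007) * a ^ 13 * b ^ 8 +
      (-4898) * a ^ 13 * b ^ 10 * e + 92538 * a ^ 13 * b ^ 12 * e ^ 2 +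
      198956 * a ^ 13 * b ^ 14 * e ^ 3 + (-153194) * a ^ 13 * b ^ 16 * e ^ 4 +
      (-624873) * a ^ 13 * b ^ 18 * e ^ 5 + (-151108) * a ^ 13 * b ^ 20 * e ^ 6 +
      (-6007) * a ^ 14 * b ^ 7 + 1109 * a ^ 14 * b ^ 9 * e + 97436 * a ^ 14 * b ^ 11 * e ^ 2 +
      130446 * a ^ 14 * b ^ 13 * e ^ 3 + (-296516) * a ^ 14 * b ^ 15 * e ^ 4 +
      (-632233) * a ^ 14 * b ^ 17 * e ^ 5 + (-75584) * a ^ 14 * b ^ 19 * e ^ 6 +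
      (-6007) * a ^ 15 * b ^ 6 + 7116 * a ^ 15 * b ^ 8 * e + 96327 * a ^ 15 * b ^ 10 * e ^ 2 +
      57038 * a ^ 15 * b ^ 12 * e ^ 3 + (-395356) * a ^ 15 * b ^ 14 * e ^ 4 +
      (-551905) * a ^ 15 * b ^ 16 * e ^ 5 + 71742 * a ^ 15 * b ^ 18 * e ^ 6 +
      (-6007) * a ^ 16 * b ^ 5 + 13123 * a ^ 16 * b ^ 7 * e + 89211 * a ^ 16 * b ^ 9 * e ^ 2 +
      (-15261) * a ^ 16 * b ^ 11 * e ^ 3 + (-444816) * a ^ 16 * b ^ 13 * e ^ 4 +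
      (-404343) * a ^ 16 * b ^ 15 * e ^ 5 + 258816 * a ^ 16 * b ^ 17 * e ^ 6 +
      66989 * a ^ 16 * b ^ 19 * e ^ 7 + (-6007) * a ^ 17 * b ^ 4 + 19130 * a ^ 17 * b ^ 6 * e +
      76088 * a ^ 17 * b ^ 8 * e ^ 2 + (-80444) * a ^ 17 * b ^ 10 * e ^ 3 +
      (-446005) * a ^ 17 * b ^ 12 * e ^ 4 + (-214899) * a ^ 17 * b ^ 14 * e ^ 5 +
      450010 * a ^ 17 * b ^ 16 * e ^ 6 + 137255 * a ^ 17 * b ^ 18 * e ^ 7 +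
      (-6007) * a ^ 18 * b ^ 3 + 25137 * a ^ 18 * b ^ 5 * e + 56958 * a ^ 18 * b ^ 7 * e ^ 2 +
      (-132504) * a ^ 18 * b ^ 9 * e ^ 3 + (-406039) * a ^ 18 * b ^ 11 * e ^ 4 +
      (-7816) * a ^ 18 * b ^ 13 * e ^ 5 + 611020 * a ^ 18 * b ^ 15 * e ^ 6 +
      151108 * a ^ 18 * b ^ 17 * e ^ 7 + (-6007) * a ^ 19 * b ^ 2 + 31144 * a ^ 19 * b ^ 4 * e +
      31821 * a ^ 19 * b ^ 6 * e ^ 2 + (-165434) * a ^ 19 * b ^ 8 * e ^ 3 +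
      (-338041) * a ^ 19 * b ^ 10 * e ^ 4 + 199779 * a ^ 19 * b ^ 12 * e ^ 5 +
      707757 * a ^ 19 * b ^ 14 * e ^ 6 + 75584 * a ^ 19 * b ^ 16 * e ^ 7 +
      (-6007) * a ^ 20 * b + 37151 * a ^ 20 * b ^ 3 * e + 677 * a ^ 20 * b ^ 5 * e ^ 2 +
      (-173227) * a ^ 20 * b ^ 7 * e ^ 3 + (-261141) * a ^ 20 * b ^ 9 * e ^ 4 +
      403882 * a ^ 20 * b ^ 11 * e ^ 5 + 699231 * a ^ 20 * b ^ 13 * e ^ 6 +
      (-71742) * a ^ 20 * b ^ 15 * e ^ 7 + (-6007) * a ^ 21 + 43158 * a ^ 21 * b ^ 2 * e +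
      (-36474) * a ^ 21 * b ^ 4 * e ^ 2 + (-149876) * a ^ 21 * b ^ 6 * e ^ 3 +
      (-200476) * a ^ 21 * b ^ 8 * e ^ 4 + 619619 * a ^ 21 * b ^ 10 * e ^ 5 +
      524428 * a ^ 21 * b ^ 12 * e ^ 6 + (-191827) * a ^ 21 * b ^ 14 * e ^ 7 +
      (-66989) * a ^ 21 * b ^ 16 * e ^ 8) * h

end Pool.Agent.H4Q
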