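import Mathlib

set_option autoImplicit false

/-!
# The section which vanishes to order 6 at the point `e = 0`, and the bound `|e|^3 ≤ 50 a^4`
-/

namespace Pool.Agent.H4Q

theorem dvd_six {a e w : ℤ}
    (h : w = a ^ 3 + a ^ 5 * e - 3 * a ^ 2 * e * w + 3 * a * e ^ 2 * w ^ 2 - e ^ 3 * w ^ 3) :
    e ^ 6 ∣ 1903 * (e ^ 2 * a ^ 3 * w ^ 3) - 429 * a ^ 8 + 1266 * (a ^ 5 * w) -
      837 * (a ^ 2 * w ^ 2) + 1442 * (e * a ^ 4 * w ^ 2) - 2258 * (e * a * w ^ 3) -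
      2663 * (e ^ 2 * w ^ 4) := by
  refine ⟨
      (-2663) * w ^ 8 * e ^ 2 + 13720 * a * w ^ 7 * e + (-27234) * a ^ 2 * w ^ 6 +
      (-22509) * a ^ 3 * w ^ 7 * e ^ 2 + 70600 * a ^ 4 * w ^ 6 * e + (-67619) * a ^ 5 * w ^ 5 +
      (-9158) * a ^ 6 * w ^ 6 * e ^ 2 + 16333 * a ^ 7 * w ^ 5 * e + 25047 * a ^ 8 * w ^ 4 +
      17534 * a ^ 9 * w ^ 5 * e ^ 2 + (-48333) * a ^ 10 * w ^ 4 * e + 49382 * a ^ 11 * w ^ 3 +
      (-5127) * a ^ 12 * w ^ 4 * e ^ 2 + 14952 * a ^ 13 * w ^ 3 * e +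
      (-31628) * a ^ 14 * w ^ 2 + 429 * a ^ 15 * w ^ 3 * e ^ 2 + (-1287) * a ^ 16 * w ^ 2 * e +
      6414 * a ^ 17 * w + (-429) * a ^ 20, ?_⟩
  linear_combination (-(
      2663 * w ^ 3 * e ^ 2 + (-2663) * w ^ 5 * e ^ 5 + 2258 * a * w ^ 2 * e +
      5731 * a * w ^ 4 * e ^ 4 + 837 * a ^ 2 * w + (-2052) * a ^ 2 * w ^ 3 * e ^ 3 +
      (-3503) * a ^ 3 * w ^ 2 * e ^ 2 + (-22509) * a ^ 3 * w ^ 4 * e ^ 5 +
      (-1695) * a ^ 4 * w * e + 3073 * a ^ 4 * w ^ 3 * e ^ 4 + (-429) * a ^ 5 +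
      6464 * a ^ 5 * w ^ 2 * e ^ 3 + 2553 * a ^ 6 * w * e ^ 2 +
      (-9158) * a ^ 6 * w ^ 3 * e ^ 5 + 429 * a ^ 7 * e + (-11141) * a ^ 7 * w ^ 2 * e ^ 4 +
      (-3411) * a ^ 8 * w * e ^ 3 + (-429) * a ^ 9 * e ^ 2 + 17534 * a ^ 9 * w ^ 2 * e ^ 5 +
      4269 * a ^ 10 * w * e ^ 4 + 429 * a ^ 11 * e ^ 3 + (-5127) * a ^ 12 * w * e ^ 5 +
      (-429) * a ^ 13 * e ^ 4 + 429 * a ^ 15 * e ^ 5)) * h

theorem e_side6 {a e b w : ℤ} (ha : 20 ≤ a) (hwd : w = a ^ 5 * e + b ^ 3)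
    (hw : e * w = a - b) (hw1 : 1 ≤ w) (hT : |e| * w ≤ a + |b|)
    (hV : a ^ 5 * |e| ≤ |b| ^ 3 + w) : |e| ^ 3 ≤ 50 * a ^ 4 := by
  by_contra hc
  push Not at hc
  have ha0 : 0 < a := by omega
  have hb : b = a - e * w := by linarith
  have hrel : w = a ^ 3 + a ^ 5 * e - 3 * a ^ 2 * e * w + 3 * a * e ^ 2 * w ^ 2 -
      e ^ 3 * w ^ 3 := by
    rw [hb] at hwd
    linear_combination hwd
  have hdvd := dvd_six hrel
  have hB3 : |b| ^ 3 ≤ w + a ^ 5 * |e| := by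
    rw [← abs_pow]
    calc |b ^ 3| = |w - a ^ 5 * e| := by congr 1; rw [hwd]; ring
      _ ≤ |w| + |a ^ 5 * e| := abs_sub _ _
      _ = w + a ^ 5 * |e| := by
        rw [abs_of_pos (by omega : (0 : ℤ) < w), abs_mul, abs_of_pos (by positivity : 0 < a ^ 5)]
  have hTl : |b| - a ≤ |e| * w := by
    have h1 : |e| * w = |b - a| := by
      rw [abs_sub_comm, ← hw, abs_mul, abs_of_pos (by omega : (0 : ℤ) < w)]
    rw [h1]
    have := abs_sub_abs_le_abs_sub b a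
    rwa [abs_of_pos ha0] at this
  have heE := le_abs_self e
  have heE' := neg_abs_le e
  have he2 : e ^ 2 = |e| ^ 2 := (sq_abs e).symm
  have hB0 := abs_nonneg b
  have hE0 := abs_nonneg e
  have he6 : e ^ 6 = (|e| ^ 3) ^ 2 := by
    have : (|e| ^ 3) ^ 2 = (|e| ^ 2) ^ 3 := by ring
    rw [this, ← he2]; ring
  obtain ⟨E, hE⟩ : ∃ E, E = |e| := ⟨_, rfl⟩
  obtain ⟨B, hB⟩ : ∃ B, B = |b| := ⟨_, rfl⟩
  rw [← hE] at hc hT hV hB3 hTl heE heE' he2 hE0 he6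
  rw [← hB] at hT hV hB3 hTl hB0
  obtain ⟨T, hTd⟩ : ∃ T, T = E * w := ⟨_, rfl⟩
  rw [← hTd] at hT hTl
  obtain ⟨V, hVd⟩ : ∃ V, V = a ^ 5 * E := ⟨_, rfl⟩
  rw [← hVd] at hV hB3
  have a3 : 0 < a ^ 3 := by positivity
  have a4 : 0 < a ^ 4 := by positivity
  -- `10 a ≤ E`
  have k1 : 10 * a ≤ E := by
    by_contra hlt
    push Not at hlt
    have h1 : E ^ 3 < (10 * a) ^ 3 := pow_lt_pow_left₀ hlt hE0 (by norm_num)
    have h2 : (10 * a) ^ 3 = 1000 * a ^ 3 := by ring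
    have h3 : 20 * a ^ 3 ≤ a ^ 4 := by nlinarith
    linarith
  have hEpos : 0 < E := by omega
  have hT0 : 0 < T := by rw [hTd]; positivity
  have k2 : 10 * a ^ 6 ≤ V := by
    calc 10 * a ^ 6 = a ^ 5 * (10 * a) := by ring
      _ ≤ a ^ 5 * E := mul_le_mul_of_nonneg_left k1 (by positivity)
      _ = V := hVd.symm
  have k3 : 8000 * a ^ 3 ≤ a ^ 6 := by
    have : (20 : ℤ) ^ 3 ≤ a ^ 3 := pow_le_pow_left₀ (by norm_num) ha 3
    have h2 : (20 : ℤ) ^ 3 = 8000 := by norm_num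
    calc 8000 * a ^ 3 ≤ a ^ 3 * a ^ 3 := mul_le_mul_of_nonneg_right (by linarith) a3.le
      _ = a ^ 6 := by ring
  have k4 : a ≤ a ^ 3 := by
    have : a ^ 1 ≤ a ^ 3 := pow_le_pow_right₀ (by omega) (by norm_num)
    simpa using this
  have k5 : 200 * w ≤ a + B := by
    calc 200 * w ≤ E * w := mul_le_mul_of_nonneg_right (by omega) (by omega)
      _ = T := hTd.symm
      _ ≤ a + B := hT
  have k6 : B ≤ B ^ 3 := by
    rcases hB0.eq_or_lt with h0 | h0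
    · rw [← h0]; norm_num
    · have : B ^ 1 ≤ B ^ 3 := pow_le_pow_right₀ (by omega) (by norm_num)
      simpa using this
  have hV0 : 0 < V := by rw [hVd]; positivity
  have k7 : 100 * B ^ 3 ≤ 101 * V := by linarith
  have k8 : 99 * V ≤ 100 * B ^ 3 := by linarith
  have k9 : 40 * a ≤ B := by
    by_contra hlt
    push Not at hlt
    have h1 : B ^ 3 < (40 * a) ^ 3 := pow_lt_pow_left₀ hlt hB0 (by norm_num)
    have h2 : (40 * a) ^ 3 = 64000 * a ^ 3 := by ring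
    linarith
  -- bounds for T
  have t1 : 40 * T ≤ 41 * B := by linarith
  have t2 : 39 * B ≤ 40 * T := by linarith
  have t3 : 64000 * T ^ 3 ≤ 68921 * B ^ 3 := by
    have h1 : (40 * T) ^ 3 ≤ (41 * B) ^ 3 := pow_le_pow_left₀ (by positivity) t1 3
    have h2 : (40 * T) ^ 3 = 64000 * T ^ 3 := by ring
    have h3 : (41 * B) ^ 3 = 68921 * B ^ 3 := by ring
    linarith
  have t4 : 59319 * B ^ 3 ≤ 64000 * T ^ 3 := by
    have h1 : (39 * B) ^ 3 ≤ (40 * T) ^ 3 := pow_le_pow_left₀ (by positivity) t2 3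
    have h2 : (40 * T) ^ 3 = 64000 * T ^ 3 := by ring
    have h3 : (39 * B) ^ 3 = 59319 * B ^ 3 := by ring
    linarith
  have t5 : 10 * T ^ 3 ≤ 11 * V := by linarith
  have t6 : 9 * V ≤ 10 * T ^ 3 := by linarith
  -- `w ≤ a`
  have w1 : w ≤ a := by
    by_contra hlt
    push Not at hlt
    have h1 : a ^ 3 ≤ w ^ 3 := pow_le_pow_left₀ ha0.le hlt.le 3
    have h2 : E ^ 3 * a ^ 3 ≤ E ^ 3 * w ^ 3 := mul_le_mul_of_nonneg_left h1 (by positivity)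
    have h3 : E ^ 3 * w ^ 3 = T ^ 3 := by rw [hTd]; ring
    have h4 : E * (a ^ 3 * (100 * a ^ 2)) ≤ E * (a ^ 3 * E ^ 2) := by
      apply mul_le_mul_of_nonneg_left _ hE0
      apply mul_le_mul_of_nonneg_left _ a3.le
      have : (10 * a) ^ 2 ≤ E ^ 2 := pow_le_pow_left₀ (by positivity) k1 2
      linarith [this, (by ring : (10 * a) ^ 2 = 100 * a ^ 2)]
    have h5 : E * (a ^ 3 * E ^ 2) = E ^ 3 * a ^ 3 := by ring
    have h6 : E * (a ^ 3 * (100 * a ^ 2)) = 100 * V := by rw [hVd]; ring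
    linarith
  -- all terms are compared with `a^3 V = E a^8`
  obtain ⟨Q, hQ⟩ : ∃ Q, Q = 1903 * (e ^ 2 * a ^ 3 * w ^ 3) - 429 * a ^ 8 + 1266 * (a ^ 5 * w) -
      837 * (a ^ 2 * w ^ 2) + 1442 * (e * a ^ 4 * w ^ 2) - 2258 * (e * a * w ^ 3) -
      2663 * (e ^ 2 * w ^ 4) := ⟨_, rfl⟩
  rw [← hQ] at hdvd
  obtain ⟨R, hR⟩ : ∃ R, R = a ^ 3 * V := ⟨_, rfl⟩
  have hR0 : 0 < R := by rw [hR]; positivity
  have r1 : 10 * (a ^ 3 * T ^ 3) ≤ 11 * R := by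
    have := mul_le_mul_of_nonneg_left t5 a3.le
    rw [hR]; linarith
  have r2 : 9 * R ≤ 10 * (a ^ 3 * T ^ 3) := by
    have := mul_le_mul_of_nonneg_left t6 a3.le
    rw [hR]; linarith
  -- `a T^2 ≤ T^3 / 39`
  have t7 : 39 * a ≤ T := by linarith
  have r3 : 39 * (a ^ 4 * T ^ 2) ≤ a ^ 3 * T ^ 3 := by
    calc 39 * (a ^ 4 * T ^ 2) = a ^ 3 * T ^ 2 * (39 * a) := by ring
      _ ≤ a ^ 3 * T ^ 2 * T := mul_le_mul_of_nonneg_left t7 (by positivity)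
      _ = a ^ 3 * T ^ 3 := by ring
  have r4 : a ^ 2 * 400 ≤ a ^ 4 := by
    have : (20 : ℤ) ^ 2 ≤ a ^ 2 := pow_le_pow_left₀ (by norm_num) ha 2
    have h2 : (20 : ℤ) ^ 2 = 400 := by norm_num
    calc a ^ 2 * 400 ≤ a ^ 2 * a ^ 2 := mul_le_mul_of_nonneg_left (by linarith) (by positivity)
      _ = a ^ 4 := by ring
  have r5 : 400 * (a * w * T ^ 2) ≤ a ^ 4 * T ^ 2 := by
    calc 400 * (a * w * T ^ 2) = 400 * a * T ^ 2 * w := by ring
      _ ≤ 400 * a * T ^ 2 * a := mul_le_mul_of_nonneg_left w1 (by positivity)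
      _ = a ^ 2 * 400 * T ^ 2 := by ring
      _ ≤ a ^ 4 * T ^ 2 := mul_le_mul_of_nonneg_right r4 (by positivity)
  have r6 : 400 * (w * T ^ 3) ≤ a ^ 3 * T ^ 3 := by
    have h1 : 400 * w ≤ a ^ 3 := by
      have : 400 * a ≤ a ^ 3 := by nlinarith [r4, ha0]
      linarith
    calc 400 * (w * T ^ 3) = 400 * w * T ^ 3 := by ring
      _ ≤ a ^ 3 * T ^ 3 := mul_le_mul_of_nonneg_right h1 (by positivity)
  have r7 : a ^ 2 * T * w ≤ a ^ 4 * T ^ 2 := by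
    calc a ^ 2 * T * w ≤ a ^ 2 * T * a := mul_le_mul_of_nonneg_left w1 (by positivity)
      _ ≤ a ^ 2 * T * T := mul_le_mul_of_nonneg_left (by linarith) (by positivity)
      _ ≤ a ^ 4 * T ^ 2 := by
        nlinarith [r4, mul_pos (show 0 < a ^ 2 by positivity) (show 0 < T ^ 2 by positivity)]
  have r8 : a ^ 5 * T ≤ a ^ 4 * T ^ 2 := by
    calc a ^ 5 * T = a ^ 4 * T * a := by ring
      _ ≤ a ^ 4 * T * T := mul_le_mul_of_nonneg_left (by linarith) (by positivity)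
      _ = a ^ 4 * T ^ 2 := by ring
  have z0 : 0 < a ^ 4 * w ^ 2 := by positivity
  have z1 : 0 < a * w ^ 3 := by positivity
  have m1 : E * (e * (a ^ 4 * w ^ 2)) ≤ a ^ 4 * T ^ 2 := by
    calc E * (e * (a ^ 4 * w ^ 2)) ≤ E * (E * (a ^ 4 * w ^ 2)) :=
          mul_le_mul_of_nonneg_left (mul_le_mul_of_nonneg_right heE z0.le) hE0
      _ = a ^ 4 * T ^ 2 := by rw [hTd]; ring
  have m2 : -(a ^ 4 * T ^ 2) ≤ E * (e * (a ^ 4 * w ^ 2)) := by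
    calc -(a ^ 4 * T ^ 2) = E * (-E * (a ^ 4 * w ^ 2)) := by rw [hTd]; ring
      _ ≤ E * (e * (a ^ 4 * w ^ 2)) :=
          mul_le_mul_of_nonneg_left (mul_le_mul_of_nonneg_right heE' z0.le) hE0
  have m3 : E * (e * (a * w ^ 3)) ≤ a * w * T ^ 2 := by
    calc E * (e * (a * w ^ 3)) ≤ E * (E * (a * w ^ 3)) :=
          mul_le_mul_of_nonneg_left (mul_le_mul_of_nonneg_right heE z1.le) hE0
      _ = a * w * T ^ 2 := by rw [hTd]; ring
  have m4 : -(a * w * T ^ 2) ≤ E * (e * (a * w ^ 3)) := by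
    calc -(a * w * T ^ 2) = E * (-E * (a * w ^ 3)) := by rw [hTd]; ring
      _ ≤ E * (e * (a * w ^ 3)) :=
          mul_le_mul_of_nonneg_left (mul_le_mul_of_nonneg_right heE' z1.le) hE0
  have hEQ : E * Q = 1903 * (a ^ 3 * T ^ 3) - 429 * R + 1266 * (a ^ 5 * T) -
      837 * (a ^ 2 * T * w) + 1442 * (E * (e * (a ^ 4 * w ^ 2))) -
      2258 * (E * (e * (a * w ^ 3))) - 2663 * (w * T ^ 3) := by
    rw [hQ, he2, hR, hVd, hTd]
    ring
  have n1 : 0 < a ^ 5 * T := by positivity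
  have n2 : 0 < a ^ 2 * T * w := by positivity
  have n3 : 0 < w * T ^ 3 := by positivity
  have n4 : 0 < a ^ 3 * T ^ 3 := by positivity
  have n5 : 0 < a ^ 4 * T ^ 2 := by positivity
  have lo : 0 < E * Q := by
    rw [hEQ]
    linarith
  have hi : E * Q < E * (2500 * a ^ 8) := by
    have h1 : E * (2500 * a ^ 8) = 2500 * R := by rw [hR, hVd]; ring
    rw [h1, hEQ]
    linarith
  have hQpos : 0 < Q := by
    by_contra hlt
    push Not at hlt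
    have := mul_nonpos_of_nonneg_of_nonpos hE0 hlt
    linarith
  have hQlt : Q < 2500 * a ^ 8 := lt_of_mul_lt_mul_left hi hE0
  have hfin := Int.le_of_dvd hQpos hdvd
  have h1 : (50 * a ^ 4) ^ 2 < (E ^ 3) ^ 2 := pow_lt_pow_left₀ hc (by positivity) (by norm_num)
  have h3 : (50 * a ^ 4) ^ 2 = 2500 * a ^ 8 := by ring
  linarith

end Pool.Agent.H4Q
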