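import Mathlib

set_option autoImplicit false

/-!
# The size of the function of pole order 24
-/

namespace Pool.Agent.H4Q

theorem size_22 {x y u N : ℤ} (hN : N = |x|) (h1600 : 1600 ≤ N)
    (hy : 2 * |y| ^ 3 ≤ 3 * N ^ 4) (hu : 4 * |u| ^ 3 ≤ 9 * N ^ 5) :
    0 <
      66989 * x ^ 8 - 137255 * (x ^ 5 * y ^ 2) - 151108 * (x ^ 6 * y) - 75584 * x ^ 7 -
      71742 * (x ^ 4 * y ^ 2) - 325805 * (x ^ 5 * y) - 657531 * x ^ 6 +
      638726 * (x ^ 3 * y ^ 2) + 556709 * (x ^ 4 * y) + 332837 * x ^ 5 +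
      36794 * (x ^ 2 * y ^ 2) + 170766 * (x ^ 3 * y) + 896517 * x ^ 4 - 221859 * (x * y ^ 2) -
      162898 * (x ^ 2 * y) - 73150 * x ^ 3 - 70975 * y ^ 2 - 64968 * (x * y) - 280820 * x ^ 2 -
      6007 * u - 6007 * y - 76982 * x - 6007 ∧
      66989 * x ^ 8 - 137255 * (x ^ 5 * y ^ 2) - 151108 * (x ^ 6 * y) - 75584 * x ^ 7 -
      71742 * (x ^ 4 * y ^ 2) - 325805 * (x ^ 5 * y) - 657531 * x ^ 6 +
      638726 * (x ^ 3 * y ^ 2) + 556709 * (x ^ 4 * y) + 332837 * x ^ 5 +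
      36794 * (x ^ 2 * y ^ 2) + 170766 * (x ^ 3 * y) + 896517 * x ^ 4 - 221859 * (x * y ^ 2) -
      162898 * (x ^ 2 * y) - 73150 * x ^ 3 - 70975 * y ^ 2 - 64968 * (x * y) - 280820 * x ^ 2 -
      6007 * u - 6007 * y - 76982 * x - 6007 <
      90000 * N ^ 8 := by
  have hN0 : 0 < N := by omega
  have p2 : 0 < N ^ 2 := by positivity
  have p3 : 0 < N ^ 3 := by positivity
  have p4 : 0 < N ^ 4 := by positivity
  have p5 : 0 < N ^ 5 := by positivity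
  have p6 : 0 < N ^ 6 := by positivity
  have p7 : 0 < N ^ 7 := by positivity
  have p8 : 0 < N ^ 8 := by positivity
  have a1 : 8 * |y| ^ 2 ≤ N ^ 3 := by
    by_contra hc
    push Not at hc
    have h1 : (N ^ 3) ^ 3 < (8 * |y| ^ 2) ^ 3 := pow_lt_pow_left₀ hc p3.le (by norm_num)
    have h2 : (2 * |y| ^ 3) ^ 2 ≤ (3 * N ^ 4) ^ 2 := pow_le_pow_left₀ (by positivity) hy 2
    have h3 : N ^ 8 * N < N ^ 8 * 1152 := by
      calc N ^ 8 * N = (N ^ 3) ^ 3 := by ring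
        _ < (8 * |y| ^ 2) ^ 3 := h1
        _ = 128 * (2 * |y| ^ 3) ^ 2 := by ring
        _ ≤ 128 * (3 * N ^ 4) ^ 2 := by linarith
        _ = N ^ 8 * 1152 := by ring
    have := lt_of_mul_lt_mul_left h3 (by positivity)
    omega
  have a2 : 100 * |y| ≤ N ^ 2 := by
    by_contra hc
    push Not at hc
    have h1 : (N ^ 2) ^ 3 < (100 * |y|) ^ 3 := pow_lt_pow_left₀ hc p2.le (by norm_num)
    have h3 : N ^ 4 * (2 * N ^ 2) < N ^ 4 * 3000000 := by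
      calc N ^ 4 * (2 * N ^ 2) = 2 * (N ^ 2) ^ 3 := by ring
        _ < 2 * (100 * |y|) ^ 3 := by linarith
        _ = 1000000 * (2 * |y| ^ 3) := by ring
        _ ≤ 1000000 * (3 * N ^ 4) := by linarith
        _ = N ^ 4 * 3000000 := by ring
    have := lt_of_mul_lt_mul_left h3 p4.le
    nlinarith
  have a3 : 8 * |u| ≤ N ^ 2 := by
    by_contra hc
    push Not at hc
    have h1 : (N ^ 2) ^ 3 < (8 * |u|) ^ 3 := pow_lt_pow_left₀ hc p2.le (by norm_num)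
    have h3 : N ^ 5 * N < N ^ 5 * 1152 := by
      calc N ^ 5 * N = (N ^ 2) ^ 3 := by ring
        _ < (8 * |u|) ^ 3 := h1
        _ = 128 * (4 * |u| ^ 3) := by ring
        _ ≤ 128 * (9 * N ^ 5) := by linarith
        _ = N ^ 5 * 1152 := by ring
    have := lt_of_mul_lt_mul_left h3 p5.le
    omega
  have y0 := abs_nonneg y
  have u0 := abs_nonneg u
  have q87 : 1600 * N ^ 7 ≤ N ^ 8 := by nlinarith
  have q76 : 1600 * N ^ 6 ≤ N ^ 7 := by nlinarith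
  have q65 : 1600 * N ^ 5 ≤ N ^ 6 := by nlinarith
  have q54 : 1600 * N ^ 4 ≤ N ^ 5 := by nlinarith
  have q43 : 1600 * N ^ 3 ≤ N ^ 4 := by nlinarith
  have q32 : 1600 * N ^ 2 ≤ N ^ 3 := by nlinarith
  have q21 : 1600 * N ≤ N ^ 2 := by nlinarith
  have x8 : x ^ 8 = N ^ 8 := by rw [hN, ← abs_pow, abs_of_nonneg (by positivity)]
  have s1 : 8 * |x ^ 5 * y ^ 2| ≤ N ^ 8 := by
    have e : |x ^ 5 * y ^ 2| = N ^ 5 * |y| ^ 2 := by rw [abs_mul, abs_pow, abs_pow, hN]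
    rw [e]
    calc 8 * (N ^ 5 * |y| ^ 2) = N ^ 5 * (8 * |y| ^ 2) := by ring
      _ ≤ N ^ 5 * N ^ 3 := mul_le_mul_of_nonneg_left a1 (by positivity)
      _ = N ^ 8 := by ring
  have b1 := abs_le.1 (le_refl |x ^ 5 * y ^ 2|)
  have s2 : 100 * |x ^ 6 * y| ≤ N ^ 8 := by
    have e : |x ^ 6 * y| = N ^ 6 * |y| := by rw [abs_mul, abs_pow, hN]
    rw [e]
    calc 100 * (N ^ 6 * |y|) = N ^ 6 * (100 * |y|) := by ring
      _ ≤ N ^ 6 * N ^ 2 := mul_le_mul_of_nonneg_left a2 (by positivity)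
      _ = N ^ 8 := by ring
  have b2 := abs_le.1 (le_refl |x ^ 6 * y|)
  have s3 : |x ^ 7| ≤ N ^ 7 := by rw [abs_pow, hN]
  have b3 := abs_le.1 (le_refl |x ^ 7|)
  have s4 : 8 * |x ^ 4 * y ^ 2| ≤ N ^ 7 := by
    have e : |x ^ 4 * y ^ 2| = N ^ 4 * |y| ^ 2 := by rw [abs_mul, abs_pow, abs_pow, hN]
    rw [e]
    calc 8 * (N ^ 4 * |y| ^ 2) = N ^ 4 * (8 * |y| ^ 2) := by ring
      _ ≤ N ^ 4 * N ^ 3 := mul_le_mul_of_nonneg_left a1 (by positivity)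
      _ = N ^ 7 := by ring
  have b4 := abs_le.1 (le_refl |x ^ 4 * y ^ 2|)
  have s5 : 100 * |x ^ 5 * y| ≤ N ^ 7 := by
    have e : |x ^ 5 * y| = N ^ 5 * |y| := by rw [abs_mul, abs_pow, hN]
    rw [e]
    calc 100 * (N ^ 5 * |y|) = N ^ 5 * (100 * |y|) := by ring
      _ ≤ N ^ 5 * N ^ 2 := mul_le_mul_of_nonneg_left a2 (by positivity)
      _ = N ^ 7 := by ring
  have b5 := abs_le.1 (le_refl |x ^ 5 * y|)
  have s6 : |x ^ 6| ≤ N ^ 6 := by rw [abs_pow, hN]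
  have b6 := abs_le.1 (le_refl |x ^ 6|)
  have s7 : 8 * |x ^ 3 * y ^ 2| ≤ N ^ 6 := by
    have e : |x ^ 3 * y ^ 2| = N ^ 3 * |y| ^ 2 := by rw [abs_mul, abs_pow, abs_pow, hN]
    rw [e]
    calc 8 * (N ^ 3 * |y| ^ 2) = N ^ 3 * (8 * |y| ^ 2) := by ring
      _ ≤ N ^ 3 * N ^ 3 := mul_le_mul_of_nonneg_left a1 (by positivity)
      _ = N ^ 6 := by ring
  have b7 := abs_le.1 (le_refl |x ^ 3 * y ^ 2|)
  have s8 : 100 * |x ^ 4 * y| ≤ N ^ 6 := by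
    have e : |x ^ 4 * y| = N ^ 4 * |y| := by rw [abs_mul, abs_pow, hN]
    rw [e]
    calc 100 * (N ^ 4 * |y|) = N ^ 4 * (100 * |y|) := by ring
      _ ≤ N ^ 4 * N ^ 2 := mul_le_mul_of_nonneg_left a2 (by positivity)
      _ = N ^ 6 := by ring
  have b8 := abs_le.1 (le_refl |x ^ 4 * y|)
  have s9 : |x ^ 5| ≤ N ^ 5 := by rw [abs_pow, hN]
  have b9 := abs_le.1 (le_refl |x ^ 5|)
  have s10 : 8 * |x ^ 2 * y ^ 2| ≤ N ^ 5 := by
    have e : |x ^ 2 * y ^ 2| = N ^ 2 * |y| ^ 2 := by rw [abs_mul, abs_pow, abs_pow, hN]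
    rw [e]
    calc 8 * (N ^ 2 * |y| ^ 2) = N ^ 2 * (8 * |y| ^ 2) := by ring
      _ ≤ N ^ 2 * N ^ 3 := mul_le_mul_of_nonneg_left a1 (by positivity)
      _ = N ^ 5 := by ring
  have b10 := abs_le.1 (le_refl |x ^ 2 * y ^ 2|)
  have s11 : 100 * |x ^ 3 * y| ≤ N ^ 5 := by
    have e : |x ^ 3 * y| = N ^ 3 * |y| := by rw [abs_mul, abs_pow, hN]
    rw [e]
    calc 100 * (N ^ 3 * |y|) = N ^ 3 * (100 * |y|) := by ring
      _ ≤ N ^ 3 * N ^ 2 := mul_le_mul_of_nonneg_left a2 (by positivity)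
      _ = N ^ 5 := by ring
  have b11 := abs_le.1 (le_refl |x ^ 3 * y|)
  have s12 : |x ^ 4| ≤ N ^ 4 := by rw [abs_pow, hN]
  have b12 := abs_le.1 (le_refl |x ^ 4|)
  have s13 : 8 * |x * y ^ 2| ≤ N ^ 4 := by
    have e : |x * y ^ 2| = N * |y| ^ 2 := by rw [abs_mul, abs_pow, hN]
    rw [e]
    calc 8 * (N * |y| ^ 2) = N * (8 * |y| ^ 2) := by ring
      _ ≤ N * N ^ 3 := mul_le_mul_of_nonneg_left a1 (by positivity)
      _ = N ^ 4 := by ring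
  have b13 := abs_le.1 (le_refl |x * y ^ 2|)
  have s14 : 100 * |x ^ 2 * y| ≤ N ^ 4 := by
    have e : |x ^ 2 * y| = N ^ 2 * |y| := by rw [abs_mul, abs_pow, hN]
    rw [e]
    calc 100 * (N ^ 2 * |y|) = N ^ 2 * (100 * |y|) := by ring
      _ ≤ N ^ 2 * N ^ 2 := mul_le_mul_of_nonneg_left a2 (by positivity)
      _ = N ^ 4 := by ring
  have b14 := abs_le.1 (le_refl |x ^ 2 * y|)
  have s15 : |x ^ 3| ≤ N ^ 3 := by rw [abs_pow, hN]
  have b15 := abs_le.1 (le_refl |x ^ 3|)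
  have s16 : 8 * |y ^ 2| ≤ N ^ 3 := by rw [abs_pow]; exact a1
  have b16 := abs_le.1 (le_refl |y ^ 2|)
  have s17 : 100 * |x * y| ≤ N ^ 3 := by
    have e : |x * y| = N * |y| := by rw [abs_mul, hN]
    rw [e]
    calc 100 * (N * |y|) = N * (100 * |y|) := by ring
      _ ≤ N * N ^ 2 := mul_le_mul_of_nonneg_left a2 (by positivity)
      _ = N ^ 3 := by ring
  have b17 := abs_le.1 (le_refl |x * y|)
  have s18 : |x ^ 2| ≤ N ^ 2 := by rw [abs_pow, hN]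
  have b18 := abs_le.1 (le_refl |x ^ 2|)
  have s19 : 100 * |y| ≤ N ^ 2 := a2
  have b19 := abs_le.1 (le_refl |y|)
  have s20 : |x| ≤ N := hN.symm.le
  have b20 := abs_le.1 (le_refl |x|)
  have bu := abs_le.1 (le_refl |u|)
  rw [x8]
  constructor
  · linarith [b1.1, b1.2, b2.1, b2.2, b3.1, b3.2, b4.1, b4.2, b5.1, b5.2, b6.1, b6.2, b7.1, b7.2,
      b8.1, b8.2, b9.1, b9.2, b10.1, b10.2, b11.1, b11.2, b12.1, b12.2, b13.1, b13.2, b14.1,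
      b14.2, b15.1, b15.2, b16.1, b16.2, b17.1, b17.2, b18.1, b18.2, b19.1, b19.2, b20.1,
      b20.2, bu.1, bu.2]
  · linarith [b1.1, b1.2, b2.1, b2.2, b3.1, b3.2, b4.1, b4.2, b5.1, b5.2, b6.1, b6.2, b7.1, b7.2,
      b8.1, b8.2, b9.1, b9.2, b10.1, b10.2, b11.1, b11.2, b12.1, b12.2, b13.1, b13.2, b14.1,
      b14.2, b15.1, b15.2, b16.1, b16.2, b17.1, b17.2, b18.1, b18.2, b19.1, b19.2, b20.1,
      b20.2, bu.1, bu.2]

end Pool.Agent.H4Q
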